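import Mathlib
import Pool.Agent.Work.MP_f414f1_nt.Defs
import Pool.Agent.Work.MP_f414f1_nt.KTop

/-!
# Products of three small fractions approximating a prime: all primes, constant 3/2

`m₃(p)` is the minimum of `|a₁a₂a₃/(b₁b₂b₃) - p|` over integers `a_i, b_i` in `{1, …, p - 1}`
(the set of these values is `MPf414f1.dists p`; that `MPf414f1.m3 p` is its least element is
`MPf414f1.m3_isLeast`).  The question is whether `p² m₃(p) → 1`.

We prove `limsup p² m₃(p) ≤ 3/2`, the limit superior over all primes.

The proof.  There is a finite covering of the residue classes (31863 classes, moduli dividing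
160626866400) by identities
`((s₁p - u₁)/t₁) ((s₂p - u₂)/t₂) ((s₃p - u₃)/t₃) - p c ((x₁p - y₁)/w₁) ((x₂p - y₂)/w₂) = ±1`
(ideal solutions of the Prouhet-Tarry-Escott problem) which are integral in the residue class and
have `s₁s₂s₃/(t₁t₂t₃) ≥ 2/3`.  The covering is checked by the kernel.
-/

open Filter

namespace Pool.Agent.Results.MP_f414f1_nt.AllPrimes

/-- For every `ε > 0` and all sufficiently large primes `p` one has `p² m₃(p) ≤ 3/2 + ε`. -/
theorem result (ε : ℝ) (hε : 0 < ε) :
    ∀ᶠ p : ℕ in atTop, p.Prime → (p : ℝ) ^ 2 * MPf414f1.m3 p ≤ 3 / 2 + ε := by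
  have h := MPf414f1.Cov.final MPf414f1.Cov.K.all ε hε
  simpa using h

end Pool.Agent.Results.MP_f414f1_nt.AllPrimes
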