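import Mathlib
import Pool.Agent.Work.MP_f414f1_nt.Defs
import Pool.Agent.Work.MP_f414f1_nt.Limit

/-!
# Products of three small fractions approximating a prime: almost all primes

`m₃(p)` is the minimum of `|a₁a₂a₃/(b₁b₂b₃) - p|` over integers `a_i, b_i` in `{1, …, p - 1}`
(the set of these values is `MPf414f1.dists p`; that `MPf414f1.m3 p` is its least element is
`MPf414f1.m3_isLeast`).  The question is whether `p² m₃(p) → 1`.

We prove this for almost all primes: for every `ε > 0` the proportion of the primes `p ≤ n` with
`|p² m₃(p) - 1| ≥ ε` tends to `0`.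

The proof.  Let `m₁, m₂` be coprime, `m₃ = m₁ + m₂`, `M = m₁m₂m₃` and `Q = m₁² + m₁m₂ + m₂²`.
If `N p + Q = k M` then `(k m₁ - 1)(k m₂ - 1)(k m₃ + 1) = p N k² + 1`, which gives good fractions
with denominators `k, k, N` after moving a fixed rational factor between the three numbers.  The
primes for which this happens with `N` in a suitable window lie in certain residue classes to
moduli of size about `x³`, and the prime number theorem in arithmetic progressions gives the first
and second moments of the number of these classes which contain a prime.
-/

open Filter Topology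

namespace Pool.Agent.Results.MP_f414f1_nt.AlmostAllPrimes

/-- For every `ε > 0`, the number of primes `p ≤ n` with `|p² m₃(p) - 1| ≥ ε`, divided by the
number of all primes `p ≤ n`, tends to `0` as `n → ∞`. -/
theorem result (ε : ℝ) (hε : 0 < ε) :
    Tendsto (fun n : ℕ => (((Finset.range (n + 1)).filter
      (fun p : ℕ => p.Prime ∧ ε ≤ |(p : ℝ) ^ 2 * MPf414f1.m3 p - 1|)).card : ℝ) /
      (Nat.primeCounting n : ℝ)) atTop (𝓝 0) :=
  MPf414f1.almost_all ε hε

end Pool.Agent.Results.MP_f414f1_nt.AlmostAllPrimes
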