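import Mathlib
import Pool.Agent.Work.MP_f414f1_nt.Defs
import Pool.Agent.Work.MP_f414f1_nt.RecData

/-!
# Products of three small fractions approximating a prime: reciprocals of integers

`m₃(p)` is the minimum of `|a₁a₂a₃/(b₁b₂b₃) - p|` over integers `a_i, b_i` in `{1, …, p - 1}`
(the set of these values is `MPf414f1.dists p`; that `MPf414f1.m3 p` is its least element is
`MPf414f1.m3_isLeast`).

The problem records that it is not known whether `m₃(p)` is the reciprocal of an integer for every
prime `p`.  We prove that it is.

The proof.  If `a₁a₂a₃ - p b₁b₂b₃ = ±1` with `b₁b₂b₃` at least about `p² / 2`, then no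
fraction with `|a₁a₂a₃ - p b₁b₂b₃| ≥ 2` can be closer to `p`.  Such solutions exist for all
primes `p ≥ 400`: there is a finite covering of the residue classes by 418 identities
`((s₁p - u₁)/t₁) ((s₂p - u₂)/t₂) ((s₃p - u₃)/t₃) - p c ((x₁p - y₁)/w₁) ((x₂p - y₂)/w₂) = ±1`
(ideal solutions of the Prouhet-Tarry-Escott problem) which are integral in the residue class.
The covering is checked by the kernel.  For smaller `p` there are explicit solutions, except for
`p = 3, 5, 17, 23`, where the minimum is found by a complete search.
-/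

namespace Pool.Agent.Results.MP_f414f1_nt.Reciprocal

/-- For every prime `p` the minimum `m₃(p)` is the reciprocal of a positive integer `N`, and
`2 p N ≥ (p - 1)³ + 2` if `p ≥ 29`. -/
theorem result (p : ℕ) (hp : p.Prime) : ∃ N : ℕ, 1 ≤ N ∧ MPf414f1.m3 p = 1 / (N : ℝ) ∧
    (29 ≤ p → (p - 1) ^ 3 + 2 ≤ 2 * (p * N)) :=
  MPf414f1.Rec.recip hp

end Pool.Agent.Results.MP_f414f1_nt.Reciprocal
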